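import Pool.Agent.H79.MC.Targets

/-!
# (ROT) rotation of the positions
-/

set_option autoImplicit false

namespace Pool.Agent.H3.MC

open Pool.Agent.H79.MC

lemma rot_sum (n j : ℕ) (hj : j < n) (f : ℕ → ℕ) :
    ∑ i ∈ Finset.range n, f ((i + j) % n) = ∑ i ∈ Finset.range n, f i := by
  have hn : 0 < n := by omega
  refine Finset.sum_nbij' (fun i => (i + j) % n) (fun i => (i + (n - j)) % n) ?_ ?_ ?_ ?_ ?_
  · intro i _
    exact Finset.mem_range.2 (Nat.mod_lt _ hn)
  · intro i _
    exact Finset.mem_range.2 (Nat.mod_lt _ hn)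
  · intro i hi
    rw [Finset.mem_range] at hi
    rw [Nat.mod_add_mod]
    have : i + j + (n - j) = i + n := by omega
    rw [this, Nat.add_mod_right, Nat.mod_eq_of_lt hi]
  · intro i hi
    rw [Finset.mem_range] at hi
    rw [Nat.mod_add_mod]
    have : i + (n - j) + j = i + n := by omega
    rw [this, Nat.add_mod_right, Nat.mod_eq_of_lt hi]
  · intro i _
    rfl

theorem pf_rot : T_ROT := by
  intro n A j x y hj hxy
  unfold valF
  have h1 : ∑ i ∈ Finset.range n, ∑ i' ∈ Finset.range n,
      A ((i + 0) % n) ((i' + 0) % n) * (if y i = y i' then 1 else 0) =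
      ∑ i ∈ Finset.range n, ∑ i' ∈ Finset.range n, A i i' * (if y i = y i' then 1 else 0) := by
    refine Finset.sum_congr rfl fun i hi => Finset.sum_congr rfl fun i' hi' => ?_
    rw [Finset.mem_range] at hi hi'
    rw [add_zero, add_zero, Nat.mod_eq_of_lt hi, Nat.mod_eq_of_lt hi']
  rw [h1, ← rot_sum n j hj fun i => ∑ i' ∈ Finset.range n, A i i' * (if y i = y i' then 1 else 0)]
  refine Finset.sum_congr rfl fun i hi => ?_
  rw [← rot_sum n j hj fun i' => A ((i + j) % n) i' * (if y ((i + j) % n) = y i' then 1 else 0)]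
  refine Finset.sum_congr rfl fun i' hi' => ?_
  rw [Finset.mem_range] at hi hi'
  rw [hxy i hi, hxy i' hi']

end Pool.Agent.H3.MC
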