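import Pool.Agent.H79.MC.Targets

/-!
# (STP) decoding the guess
-/

set_option autoImplicit false

namespace Pool.Agent.H3.MC

open Pool.Agent.H79.MC

lemma ex_seq {W : ℕ} {p q : Prog} {s : St} {T₁ T₂ : ℕ} {P Q : St → Prop}
    (h₁ : Ex W p s T₁ P) (h₂ : ∀ s', P s' → Ex W q s' T₂ Q) : Ex W (.seq p q) s (T₁ + T₂) Q := by
  obtain ⟨t, s', hr, ht, hP⟩ := h₁
  obtain ⟨t', s'', hr', ht', hQ⟩ := h₂ s' hP
  exact ⟨t + t', s'', .seq hr hr', add_le_add ht ht', hQ⟩

lemma ex_set {W i : ℕ} {e : Exp} {s : St} {Q : St → Prop} (h : mx s e ≤ W)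
    (hQ : Q (s.setr i (ev s e))) : Ex W (.set i e) s 1 Q :=
  ⟨1, _, .set i e s h, le_rfl, hQ⟩

lemma ex_put {W k : ℕ} {e f : Exp} {s : St} {Q : St → Prop} (h : mx s e ≤ W) (h' : mx s f ≤ W)
    (hQ : Q (s.seta k (ev s e) (ev s f))) : Ex W (.put k e f) s 1 Q :=
  ⟨1, _, .put k e f s h h', le_rfl, hQ⟩

lemma ex_mono {W : ℕ} {p : Prog} {s : St} {T T' : ℕ} {P Q : St → Prop} (h : Ex W p s T P)
    (hT : T ≤ T') (hPQ : ∀ s', P s' → Q s') : Ex W p s T' Q := by
  obtain ⟨t, s', hr, ht, hP⟩ := h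
  exact ⟨t, s', hr, ht.trans hT, hPQ s' hP⟩

lemma block {b k c i : ℕ} (hc : c < b) (f : ℕ → ℕ) (hf : f k = c) :
    (i < b * (k + 1) ∧ i % b = f (i / b)) ↔ (i < b * k ∧ i % b = f (i / b)) ∨ i = b * k + c := by
  have hb : 0 < b := by omega
  constructor
  · rintro ⟨h1, h2⟩
    rcases lt_or_ge i (b * k) with h3 | h3
    · exact Or.inl ⟨h3, h2⟩
    · right
      have h4 : i / b = k := by
        rw [Nat.div_eq_iff hb]
        rw [mul_add, mul_one] at h1
        rw [mul_comm k b]
        omega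
      rw [h4, hf] at h2
      have h5 := Nat.div_add_mod i b
      rw [h4, h2] at h5
      exact h5.symm
  · rintro (⟨h1, h2⟩ | h1)
    · refine ⟨?_, h2⟩
      rw [mul_add]
      omega
    · subst h1
      refine ⟨by rw [mul_add]; omega, ?_⟩
      have h4 : (b * k + c) / b = k := by
        rw [Nat.mul_add_div hb, Nat.div_eq_of_lt hc, add_zero]
      rw [h4, hf, Nat.mul_add_mod, Nat.mod_eq_of_lt hc]

theorem pf_stp (hFR : T_FR) (hDIG : T_DIG) : T_STP := by
  intro a W s n q g h0 h1 h2 hb h4 hn hW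
  have h2a : 0 < 2 ^ a := by positivity
  have hqn : q ≤ n := le_trans (Nat.le_mul_of_pos_left q h2a) hb
  have hW1 : 2 * 2 ^ a * (n + 1) ≤ W := by omega
  have hW2 : (a + 1) * (n + 1) ≤ W := by omega
  have hW3 : 2 ^ a * (n + 1) ≤ W := by
    refine le_trans ?_ hW1
    rw [mul_assoc]
    omega
  have hW4 : n + 1 ≤ W := le_trans (Nat.le_mul_of_pos_left _ (by omega)) hW2
  have hW5 : 2 * 2 ^ a ≤ W := le_trans (Nat.le_mul_of_pos_right _ (by omega)) hW1
  have hW6 : (a + 1) * q + a + 1 ≤ W := by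
    refine le_trans ?_ hW2
    have := Nat.mul_le_mul_left (a + 1) hqn
    rw [mul_add]
    omega
  -- first loop
  let I1 : ℕ → St → Prop := fun k s' => Agree {8} {5, 6, 7} s s' ∧ s'.r 8 = k ∧
    ∀ i < k, s'.a 5 i = (if 2 ^ a * q ≤ i then 1 else 0) ∧ s'.a 6 i = 0 ∧ s'.a 7 i = 0
  have L1 : Ex W (forP 8 (.reg 0)
      (.seq (.put 5 (.reg 8) (.sub (.lit 1) (.sub (.reg 2) (.reg 8))))
        (.seq (.put 6 (.reg 8) (.lit 0)) (.put 7 (.reg 8) (.lit 0))))) s (n * (3 + 2) + 2)
      (I1 n) := by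
    refine hFR W 8 _ _ s 3 n I1 ?_ ?_ ?_
    · refine ⟨⟨fun i hi => ?_, fun k _ => rfl⟩, ?_, fun i hi => absurd hi (by omega)⟩
      · have : i ≠ 8 := by simpa using hi
        simp [St.setr, this]
      · simp [St.setr]
    · rintro k s' hk ⟨⟨hr, ha⟩, h8, -⟩
      have e0 : s'.r 0 = n := by rw [hr 0 (by decide), h0]
      exact ⟨h8, e0, by show s'.r 0 ≤ W; omega⟩
    · rintro k s' hk ⟨⟨hr, ha⟩, h8, hI⟩
      have e2 : s'.r 2 = 2 ^ a * q := by rw [hr 2 (by decide), h2]
      refine ⟨3, ((s'.seta 5 k (1 - (2 ^ a * q - k))).seta 6 k 0).seta 7 k 0, ?_, le_rfl, ?_⟩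
      · have r1 : Run W (.put 5 (.reg 8) (.sub (.lit 1) (.sub (.reg 2) (.reg 8)))) s' 1
            (s'.seta 5 k (1 - (2 ^ a * q - k))) := by
          have := Run.put (W := W) 5 (.reg 8) (.sub (.lit 1) (.sub (.reg 2) (.reg 8))) s'
            (by show s'.r 8 ≤ W; omega)
            (by show max 1 (max (s'.r 2) (s'.r 8)) ≤ W; omega)
          rw [show ev s' (.reg 8) = k from h8, show ev s' (.sub (.lit 1) (.sub (.reg 2) (.reg 8))) =
            1 - (s'.r 2 - s'.r 8) from rfl, e2, h8] at this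
          exact this
        have r2 : Run W (.put 6 (.reg 8) (.lit 0)) (s'.seta 5 k (1 - (2 ^ a * q - k))) 1
            ((s'.seta 5 k (1 - (2 ^ a * q - k))).seta 6 k 0) := by
          have := Run.put (W := W) 6 (.reg 8) (.lit 0) (s'.seta 5 k (1 - (2 ^ a * q - k)))
            (by show s'.r 8 ≤ W; omega) (by show 0 ≤ W; omega)
          rw [show ev (s'.seta 5 k (1 - (2 ^ a * q - k))) (.reg 8) = k from h8] at this
          exact this
        have r3 : Run W (.put 7 (.reg 8) (.lit 0))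
            ((s'.seta 5 k (1 - (2 ^ a * q - k))).seta 6 k 0) 1
            (((s'.seta 5 k (1 - (2 ^ a * q - k))).seta 6 k 0).seta 7 k 0) := by
          have := Run.put (W := W) 7 (.reg 8) (.lit 0)
            ((s'.seta 5 k (1 - (2 ^ a * q - k))).seta 6 k 0)
            (by show s'.r 8 ≤ W; omega) (by show 0 ≤ W; omega)
          rw [show ev ((s'.seta 5 k (1 - (2 ^ a * q - k))).seta 6 k 0) (.reg 8) = k from h8] at this
          exact this
        exact Run.seq r1 (Run.seq r2 r3)
      · refine ⟨h8, ⟨fun i hi => ?_, fun m hm => ?_⟩, ?_, fun i hi => ?_⟩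
        · have h9 : i ≠ 8 := by simpa using hi
          simp [St.setr, St.seta, h9, hr i hi]
        · have hm' : m ≠ 5 ∧ m ≠ 6 ∧ m ≠ 7 := by simpa using hm
          simp [St.setr, St.seta, hm'.1, hm'.2.1, hm'.2.2, ha m hm]
        · simp [St.setr]
        · simp only [St.setr, St.seta]
          rcases eq_or_ne i k with hik | hik
          · subst hik
            refine ⟨?_, by simp, by simp⟩
            have : (1 - (2 ^ a * q - i)) = if 2 ^ a * q ≤ i then 1 else 0 := by
              split_ifs with hc <;> omega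
            rw [← this]
            simp [Function.update]
          · obtain ⟨u1, u2, u3⟩ := hI i (by omega)
            simp only [Function.update, hik, dite_false, eq_rec_constant, reduceDIte]
            simp [hik, u1, u2, u3]
  -- second loop
  let I2 : ℕ → St → Prop := fun k s' => Agree {8, 9} {5, 6, 7} s s' ∧ s'.r 8 = k ∧
    ∀ i < n, s'.a 5 i = (if 2 ^ a * q ≤ i then 1 else 0) ∧
      s'.a 6 i = (if i < 2 ^ a * k ∧ i % 2 ^ a = bPos a g (i / 2 ^ a) then 2 * 2 ^ a else 0) ∧
      s'.a 7 i = (if i < 2 ^ a * k ∧ i % 2 ^ a = bPos a g (i / 2 ^ a) then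
        bSg a g (i / 2 ^ a) else 0)
  have L2 : ∀ s₁ : St, I1 n s₁ → Ex W (forP 8 (.reg 1)
      (.seq (.set 9 (.add (.mul (.lit (2 ^ a)) (.reg 8)) (posE (a + 1) a)))
        (.seq (.put 6 (.reg 9) (.lit (2 * 2 ^ a)))
          (.put 7 (.reg 9) (.get 4 (.add (.mul (.lit (a + 1)) (.reg 8)) (.lit a))))))) s₁
      (q * (3 + 2) + 2) (I2 q) := by
    rintro s₁ ⟨⟨hr₁, ha₁⟩, -, hI₁⟩
    refine hFR W 8 _ _ s₁ 3 q I2 ?_ ?_ ?_
    · refine ⟨⟨fun i hi => ?_, fun k hk => ?_⟩, ?_, fun i hi => ?_⟩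
      · have h9 : i ≠ 8 ∧ i ≠ 9 := by simpa using hi
        simp [St.setr, h9.1, hr₁ i (by simpa using h9.1)]
      · exact ha₁ k hk
      · simp [St.setr]
      · obtain ⟨u1, u2, u3⟩ := hI₁ i hi
        refine ⟨u1, ?_, ?_⟩
        · simp [St.setr, u2]
        · simp [St.setr, u3]
    · rintro k s' hk ⟨⟨hr, ha⟩, h8, -⟩
      have e0 : s'.r 1 = q := by rw [hr 1 (by decide), h1]
      exact ⟨h8, e0, by show s'.r 1 ≤ W; omega⟩
    · rintro k s' hk ⟨⟨hr, ha⟩, h8, hI⟩
      have ha4 : ∀ i < (a + 1) * q, s'.a 4 i = bits g i := fun i hi => by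
        rw [ha 4 (by decide)]; exact h4 i hi
      obtain ⟨d1, d2, d3⟩ := hDIG a g q k s' h8 hk ha4
      set c := bPos a g k with hc
      set v := bSg a g k with hv
      have hidx : (a + 1) * k + a < (a + 1) * q := by
        have : (a + 1) * (k + 1) ≤ (a + 1) * q := Nat.mul_le_mul_left _ (by omega)
        rw [mul_add] at this
        omega
      have hvv : s'.a 4 ((a + 1) * k + a) = v := ha4 _ hidx
      have hv1 : v ≤ 1 := by
        rw [hv]
        unfold bSg bits
        omega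
      have hkn : 2 ^ a * k + 2 ^ a ≤ 2 ^ a * (n + 1) := by
        have : 2 ^ a * (k + 1) ≤ 2 ^ a * (n + 1) := Nat.mul_le_mul_left _ (by omega)
        rwa [mul_add, mul_one] at this
      refine ⟨3, ((s'.setr 9 (2 ^ a * k + c)).seta 6 (2 ^ a * k + c) (2 * 2 ^ a)).seta 7
        (2 ^ a * k + c) v, ?_, le_rfl, ?_⟩
      · have r1 : Run W (.set 9 (.add (.mul (.lit (2 ^ a)) (.reg 8)) (posE (a + 1) a))) s' 1
            (s'.setr 9 (2 ^ a * k + c)) := by
          have e1 : ev s' (.add (.mul (.lit (2 ^ a)) (.reg 8)) (posE (a + 1) a)) =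
              2 ^ a * k + c := by
            show 2 ^ a * s'.r 8 + ev s' (posE (a + 1) a) = 2 ^ a * k + c
            rw [h8, d1]
          have := Run.set (W := W) 9 (.add (.mul (.lit (2 ^ a)) (.reg 8)) (posE (a + 1) a)) s' (by
            show max (max (max (max (2 ^ a) (s'.r 8)) (2 ^ a * s'.r 8)) (mx s' (posE (a + 1) a)))
              (2 ^ a * s'.r 8 + ev s' (posE (a + 1) a)) ≤ W
            rw [h8, d1]
            have d4 : mx s' (posE (a + 1) a) ≤ W := d3.trans (by omega)
            omega)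
          rw [e1] at this
          exact this
        have r2 : Run W (.put 6 (.reg 9) (.lit (2 * 2 ^ a))) (s'.setr 9 (2 ^ a * k + c)) 1
            ((s'.setr 9 (2 ^ a * k + c)).seta 6 (2 ^ a * k + c) (2 * 2 ^ a)) := by
          have e1 : ev (s'.setr 9 (2 ^ a * k + c)) (.reg 9) = 2 ^ a * k + c := by
            simp [ev, St.setr]
          have := Run.put (W := W) 6 (.reg 9) (.lit (2 * 2 ^ a)) (s'.setr 9 (2 ^ a * k + c))
            (by
              show (s'.setr 9 (2 ^ a * k + c)).r 9 ≤ W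
              have : (s'.setr 9 (2 ^ a * k + c)).r 9 = 2 ^ a * k + c := by simp [St.setr]
              omega) (by show 2 * 2 ^ a ≤ W; omega)
          rw [e1] at this
          exact this
        set s2 := (s'.setr 9 (2 ^ a * k + c)).seta 6 (2 ^ a * k + c) (2 * 2 ^ a) with hs2
        have e9 : s2.r 9 = 2 ^ a * k + c := by simp [hs2, St.setr, St.seta]
        have e8 : s2.r 8 = k := by simp [hs2, St.setr, St.seta, h8]
        have e4 : s2.a 4 = s'.a 4 := by simp [hs2, St.setr, St.seta]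
        have r3 : Run W (.put 7 (.reg 9) (.get 4 (.add (.mul (.lit (a + 1)) (.reg 8)) (.lit a))))
            s2 1 (s2.seta 7 (2 ^ a * k + c) v) := by
          have e1 : ev s2 (.get 4 (.add (.mul (.lit (a + 1)) (.reg 8)) (.lit a))) = v := by
            show s2.a 4 ((a + 1) * s2.r 8 + a) = v
            rw [e8, e4, hvv]
          have e1' : ev s2 (.reg 9) = 2 ^ a * k + c := e9
          have := Run.put (W := W) 7 (.reg 9)
            (.get 4 (.add (.mul (.lit (a + 1)) (.reg 8)) (.lit a))) s2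
            (by show s2.r 9 ≤ W; omega) (by
              show max (max (max (max (max (a + 1) (s2.r 8)) ((a + 1) * s2.r 8)) a)
                ((a + 1) * s2.r 8 + a)) (s2.a 4 ((a + 1) * s2.r 8 + a)) ≤ W
              rw [e8, e4, hvv]
              omega)
          rw [e1, e1'] at this
          exact this
        exact Run.seq r1 (Run.seq r2 r3)
      · refine ⟨?_, ⟨fun i hi => ?_, fun m hm => ?_⟩, ?_, fun i hi => ?_⟩
        · simp [St.setr, St.seta, h8]
        · have h9 : i ≠ 8 ∧ i ≠ 9 := by simpa using hi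
          simp [St.setr, St.seta, h9.1, h9.2, hr i hi]
        · have hm' : m ≠ 5 ∧ m ≠ 6 ∧ m ≠ 7 := by simpa using hm
          simp [St.setr, St.seta, hm'.2.1, hm'.2.2, ha m hm]
        · simp [St.setr]
        · obtain ⟨u1, u2, u3⟩ := hI i hi
          have hbl := block (b := 2 ^ a) (k := k) (c := c) (i := i) d2 (fun t => bPos a g t) rfl
          have hdiv : (2 ^ a * k + c) / 2 ^ a = k := by
            rw [Nat.mul_add_div h2a, Nat.div_eq_of_lt d2, add_zero]
          refine ⟨?_, ?_, ?_⟩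
          · simp [St.setr, St.seta, u1]
          · have e1 : (((((s'.setr 9 (2 ^ a * k + c)).seta 6 (2 ^ a * k + c) (2 * 2 ^ a)).seta 7
                (2 ^ a * k + c) v).setr 8 (k + 1)).a 6 i) =
                if i = 2 ^ a * k + c then 2 * 2 ^ a else s'.a 6 i := by
              simp [St.setr, St.seta, Function.update_apply]
            rw [e1, u2]
            by_cases hh : i = 2 ^ a * k + c
            · rw [if_pos hh, if_pos (hbl.2 (Or.inr hh))]
            · rw [if_neg hh]
              by_cases hh' : i < 2 ^ a * k ∧ i % 2 ^ a = bPos a g (i / 2 ^ a)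
              · rw [if_pos hh', if_pos (hbl.2 (Or.inl hh'))]
              · rw [if_neg hh', if_neg (fun h => (hbl.1 h).elim hh' hh)]
          · have e1 : (((((s'.setr 9 (2 ^ a * k + c)).seta 6 (2 ^ a * k + c) (2 * 2 ^ a)).seta 7
                (2 ^ a * k + c) v).setr 8 (k + 1)).a 7 i) =
                if i = 2 ^ a * k + c then v else s'.a 7 i := by
              simp [St.setr, St.seta, Function.update_apply]
            rw [e1, u3]
            by_cases hh : i = 2 ^ a * k + c
            · rw [if_pos hh, if_pos (hbl.2 (Or.inr hh)), hh, hdiv]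
            · rw [if_neg hh]
              by_cases hh' : i < 2 ^ a * k ∧ i % 2 ^ a = bPos a g (i / 2 ^ a)
              · rw [if_pos hh', if_pos (hbl.2 (Or.inl hh'))]
              · rw [if_neg hh', if_neg (fun h => (hbl.1 h).elim hh' hh)]
  have L := ex_seq L1 L2
  refine ex_mono L (by omega) ?_
  rintro s' ⟨hA, -, hI⟩
  exact ⟨hA, fun i hi => hI i hi⟩

end Pool.Agent.H3.MC
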